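import Pool.Agent.R762.Pg7

/-! Inscribed squares in Jordan curves that are locally monotone except at cusps with Lipschitz
sides. -/

set_option autoImplicit false

namespace Pool.Agent.Results.MP_5a3ebe_gt.Cusps

/-- The curve is locally monotone (in the sense of Stromquist) at the parameter `s`: near `s` all
chords of the curve lie in one open half plane. -/
def LocMono (c : ℝ → ℂ) (s : ℝ) : Prop := ∃ ρ > 0, ∃ w : ℂ, ∀ x y : ℝ, |x - s| < ρ → |y - s| < ρ →
  x < y → 0 < (w * (c y - c x)).re

/-- The curve has a cusp (or a sharp corner) with Lipschitz sides at the parameter `s`: near the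
point `c s` both branches of the curve, the one that arrives at it and the one that leaves it,
are graphs of Lipschitz functions with the constant `1 / 4` over one and the same half line (with
direction `u`) from `c s`: the chords of the arriving branch form an angle of at most
`arctan (1 / 4)` with `-u`, those of the leaving branch form an angle of at most
`arctan (1 / 4)` with `u`. -/
def LipschitzCusp (c : ℝ → ℂ) (s : ℝ) : Prop := ∃ u : ℂ, u ≠ 0 ∧ ∃ ρ > 0,
  (∀ x y, s - ρ < x → x < y → y ≤ s → |((c y - c x) / u).im| ≤ -((c y - c x) / u).re / 4) ∧
  (∀ x y, s ≤ x → x < y → y < s + ρ → |((c y - c x) / u).im| ≤ ((c y - c x) / u).re / 4)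

/-- Let `c` (continuous, of period `1`, injective on `[0, 1)`) parametrise a Jordan curve `C`.
Suppose that at each of its points `C` is locally monotone or has a cusp with Lipschitz sides.
Then `C` contains the four vertices of a square.

For instance this holds if `C` consists of the graphs of two continuous functions `f ≤ g` on a
compact interval that agree exactly at its ends and are Lipschitz with the constant `1 / 4` near the
ends (and arbitrary continuous functions elsewhere). -/
theorem result (c : ℝ → ℂ) (hc : Continuous c) (hper : ∀ t, c (t + 1) = c t)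
    (hinj : Set.InjOn c (Set.Ico 0 1)) (hloc : ∀ s, LocMono c s ∨ LipschitzCusp c s) :
    ∃ z w : ℂ, w ≠ 0 ∧ z ∈ Set.range c ∧ z + w ∈ Set.range c ∧
      z + w + Complex.I * w ∈ Set.range c ∧ z + Complex.I * w ∈ Set.range c := by
  have L : Pool.Agent.H763R2.An.Loop c := ⟨hc, hper⟩
  have J : Pool.Agent.H763R2.An.Inj c := by
    intro x y hxy hy he
    have e1 : c (Int.fract x) = c x := by
      have := L.per_int (Int.fract x) ⌊x⌋
      rw [Int.fract_add_floor] at this
      exact this.symm
    have e2 : c (Int.fract y) = c y := by
      have := L.per_int (Int.fract y) ⌊y⌋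
      rw [Int.fract_add_floor] at this
      exact this.symm
    have e3 := hinj ⟨Int.fract_nonneg x, Int.fract_lt_one x⟩
      ⟨Int.fract_nonneg y, Int.fract_lt_one y⟩ (by rw [e1, e2, he])
    obtain ⟨m, hm⟩ := Int.fract_eq_fract.1 e3
    have h1 : (m : ℝ) < 0 := by linarith
    have h2 : (-1 : ℝ) < m := by linarith
    have h3 : m < 0 := by exact_mod_cast h1
    have h4 : -1 < m := by exact_mod_cast h2
    omega
  by_cases h : ∀ s, LocMono c s
  · exact Pool.Agent.R762.Pg.all_mono L J h
  · push Not at h
    obtain ⟨s0, h0⟩ := h
    by_contra hno
    exact Pool.Agent.R762.Pg.no_local L J hno hloc h0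

end Pool.Agent.Results.MP_5a3ebe_gt.Cusps
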