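import Pool.Agent.Y535.PEG.ExD

/-! Inscribed squares in Jordan curves built from graph-directed self-similar arcs and locally
monotone arcs: a linear algebra criterion. -/

set_option autoImplicit false

namespace Pool.Agent.Results.MP_5a3ebe_gt.FractalTiles

/-- Near the parameter `s` all chords of the curve lie in one open quarter plane: for a suitable `w`
the product of `w` with `c y - c x` has `|Im| < Re` for all `x < y` close to `s` (for instance, the
curve is a segment near `s`, or two segments that form an angle of more than `90` degrees). -/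
def Tame (c : ℝ → ℂ) (s : ℝ) : Prop := ∃ ρ > 0, ∃ w : ℂ, ∀ x y : ℝ, |x - s| < ρ → |y - s| < ρ →
  x < y → |(w * (c y - c x)).im| < (w * (c y - c x)).re

/-- The curve is locally monotone (in the sense of Stromquist) at the parameter `s`: near `s` all
chords of the curve lie in one open half plane. -/
def LocMono (c : ℝ → ℂ) (s : ℝ) : Prop := ∃ ρ > 0, ∃ w : ℂ, ∀ x y : ℝ, |x - s| < ρ → |y - s| < ρ →
  x < y → 0 < (w * (c y - c x)).re

/-- The arc of `c` over `[a, b]` is shorter than the whole curve and has tame ends. -/
def IsArc (c : ℝ → ℂ) (a b : ℝ) : Prop := a < b ∧ b < a + 1 ∧ Tame c a ∧ Tame c b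

/-- A similarity maps the arc over `[a, b]` onto the arc over `[a', b']`, keeping the left side: it is
a direct similarity that keeps the directions, or an opposite similarity that reverses them. -/
def Keeps (c : ℝ → ℂ) (a b a' b' : ℝ) : Prop := ∃ u v : ℂ, u ≠ 0 ∧
  (((fun z => u * z + v) '' (c '' Set.Icc a b) = c '' Set.Icc a' b' ∧ u * c a + v = c a') ∨
   ((fun z => u * (starRingEnd ℂ) z + v) '' (c '' Set.Icc a b) = c '' Set.Icc a' b' ∧
      u * (starRingEnd ℂ) (c a) + v = c b'))

/-- A similarity maps the arc over `[a, b]` onto the arc over `[a', b']`, exchanging the sides: it is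
a direct similarity that reverses the directions, or an opposite similarity that keeps them. -/
def Swaps (c : ℝ → ℂ) (a b a' b' : ℝ) : Prop := ∃ u v : ℂ, u ≠ 0 ∧
  (((fun z => u * z + v) '' (c '' Set.Icc a b) = c '' Set.Icc a' b' ∧ u * c a + v = c b') ∨
   ((fun z => u * (starRingEnd ℂ) z + v) '' (c '' Set.Icc a b) = c '' Set.Icc a' b' ∧
      u * (starRingEnd ℂ) (c a) + v = c a'))

/-- The arc over `[a, b]` is mapped onto itself by an opposite similarity that exchanges its ends. -/
def Mirror (c : ℝ → ℂ) (a b : ℝ) : Prop := ∃ u v : ℂ, u ≠ 0 ∧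
  (fun z => u * (starRingEnd ℂ) z + v) '' (c '' Set.Icc a b) = c '' Set.Icc a b ∧
  u * (starRingEnd ℂ) (c a) + v = c b

/-- The tiles are the arcs over `[p j, q j]`, `j < N`. `Tiled c p q a b v`: the part of the curve over
`[a, b]` can be cut at tame points into finitely many arcs each of which is locally monotone at all
its points or similar to a tile, and `v j` is the number of the arcs used that are similar to the
tile `j` by a similarity that keeps the sides minus the number of those similar to it by one that
exchanges the sides. -/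
inductive Tiled (c : ℝ → ℂ) {N : ℕ} (p q : Fin N → ℝ) : ℝ → ℝ → (Fin N → ℤ) → Prop
  | mono (a b : ℝ) : IsArc c a b → (∀ s ∈ Set.Icc a b, LocMono c s) → Tiled c p q a b 0
  | keep (a b : ℝ) (j : Fin N) : IsArc c a b → Keeps c (p j) (q j) a b →
      Tiled c p q a b (Pi.single j 1)
  | swap (a b : ℝ) (j : Fin N) : IsArc c a b → Swaps c (p j) (q j) a b →
      Tiled c p q a b (-Pi.single j 1)
  | join (a m b : ℝ) (v w : Fin N → ℤ) : Tiled c p q a m v → Tiled c p q m b w →
      Tiled c p q a b (v + w)

/-- The curve `c` contains the four vertices of a square. -/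
def HasSquare (c : ℝ → ℂ) : Prop :=
  ∃ z w : ℂ, w ≠ 0 ∧ z ∈ Set.range c ∧ z + w ∈ Set.range c ∧
    z + w + Complex.I * w ∈ Set.range c ∧ z + Complex.I * w ∈ Set.range c

lemma Tiled.ends {c : ℝ → ℂ} {N : ℕ} {p q : Fin N → ℝ} {a b : ℝ} {v : Fin N → ℤ}
    (h : Tiled c p q a b v) : Tame c a ∧ Tame c b := by
  induction h with
  | mono a b h _ => exact ⟨h.2.2.1, h.2.2.2⟩
  | keep a b j h _ => exact ⟨h.2.2.1, h.2.2.2⟩
  | swap a b j h _ => exact ⟨h.2.2.1, h.2.2.2⟩
  | join a m b v w _ _ h1 h2 => exact ⟨h1.1, h2.2⟩

/-- Let `c` (continuous, of period `1`, injective on `[0, 1)`) parametrise a Jordan curve, let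
the tiles `j < N` be arcs with tame ends (over `[p j, q j]`), and let the whole curve (cut open at
the parameter `a`) be tiled with the vector `n`.

1. Suppose that `∑ n j * x j` is even for every integer vector `x` such that
   `∑ v j * x j = ∑ w j * x j` whenever one and the same part of the curve has tilings with the
   vectors `v` and `w`, and such that `x j` is even if the tile `j` is mirror symmetric. Then the
   curve contains the four vertices of a square.
2. (Graph-directed self-similar curves.) Suppose that each tile `i` is itself tiled by similar copies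
   of tiles and locally monotone arcs, with the vector `M i`. If `1` is not an eigenvalue of the
   signed incidence matrix `M`, then the curve contains the four vertices of a square. For one
   tile that consists of `m` similar copies of itself (counted with signs) and locally monotone arcs
   this is so for all `m ≠ 1`. -/
theorem result (c : ℝ → ℂ) (hc : Continuous c) (hper : ∀ t, c (t + 1) = c t)
    (hinj : Set.InjOn c (Set.Ico 0 1)) {N : ℕ} (p q : Fin N → ℝ) (hpq : ∀ j, IsArc c (p j) (q j))
    (a : ℝ) (n : Fin N → ℤ) (hn : Tiled c p q a (a + 1) n) :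
    ((∀ x : Fin N → ℤ, (∀ s t v w, Tiled c p q s t v → Tiled c p q s t w →
        ∑ j, v j * x j = ∑ j, w j * x j) → (∀ j, Mirror c (p j) (q j) → Even (x j)) →
        Even (∑ j, n j * x j)) → HasSquare c) ∧
    (∀ M : Matrix (Fin N) (Fin N) ℤ, (∀ i, Tiled c p q (p i) (q i) (M i)) →
      (M - 1).det ≠ 0 → HasSquare c) := by
  have L : Pool.Agent.H763R2.An.Loop c := ⟨hc, hper⟩
  have J : Pool.Agent.H763R2.An.Inj c := by
    intro x y hxy hy he
    have e1 : c (Int.fract x) = c x := by
      have := L.per_int (Int.fract x) ⌊x⌋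
      rw [Int.fract_add_floor] at this
      exact this.symm
    have e2 : c (Int.fract y) = c y := by
      have := L.per_int (Int.fract y) ⌊y⌋
      rw [Int.fract_add_floor] at this
      exact this.symm
    have e3 := hinj ⟨Int.fract_nonneg x, Int.fract_lt_one x⟩
      ⟨Int.fract_nonneg y, Int.fract_lt_one y⟩ (by rw [e1, e2, he])
    obtain ⟨m, hm⟩ := Int.fract_eq_fract.1 e3
    have h1 : (m : ℝ) < 0 := by linarith
    have h2 : (-1 : ℝ) < m := by linarith
    have h3 : m < 0 := by exact_mod_cast h1
    have h4 : -1 < m := by exact_mod_cast h2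
    omega
  have main : (∀ x : Fin N → ℤ, (∀ s t v w, Tiled c p q s t v → Tiled c p q s t w →
        ∑ j, v j * x j = ∑ j, w j * x j) → (∀ j, Mirror c (p j) (q j) → Even (x j)) →
        Even (∑ j, n j * x j)) → HasSquare c := by
    intro h
    by_contra hno
    obtain ⟨X, g, hodd, h1, h2, h3, h4, h5⟩ := Pool.Agent.Y535.PEG.exChargeN L J hno
    have ar : ∀ {s t : ℝ}, IsArc c s t → Pool.Agent.Y535.PEG.AR c s t := fun h =>
      ⟨h.1, h.2.1, h.2.2.1, h.2.2.2⟩
    have key : ∀ s t v, Tiled c p q s t v → X t - X s = ∑ j, v j * (X (q j) - X (p j)) := by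
      intro s t v hv
      induction hv with
      | mono a b h hm =>
        rw [h2 _ _ (ar h) hm]
        simp
      | keep a b j h hk =>
        rw [h3 _ _ _ _ (ar (hpq j)) (ar h) hk]
        simp [Pi.single_apply]
      | swap a b j h hk =>
        rw [h4 _ _ _ _ (ar (hpq j)) (ar h) hk]
        simp [Pi.single_apply]
      | join a m b v w _ _ e1 e2 =>
        have : X b - X a = (X m - X a) + (X b - X m) := by ring
        rw [this, e1, e2, ← Finset.sum_add_distrib]
        refine Finset.sum_congr rfl fun j _ => ?_
        rw [Pi.add_apply]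
        ring
    have e0 := key _ _ _ hn
    rw [h1 a hn.ends.1] at e0
    have hev := h (fun j => X (q j) - X (p j)) (fun s t v w hv hw => by
      rw [← key s t v hv, ← key s t w hw]) (fun j hj => h5 _ _ (ar (hpq j)) hj)
    rw [← e0] at hev
    have : X a + g - X a = g := by ring
    rw [this] at hev
    exact (Int.not_even_iff_odd.2 hodd) hev
  refine ⟨main, fun M hM hdet => main fun x hx _ => ?_⟩
  have hself : ∀ i, ∑ j, M i j * x j = x i := by
    intro i
    have hid : Tiled c p q (p i) (q i) (Pi.single i 1) := by
      refine Tiled.keep _ _ i (hpq i) ⟨1, 0, one_ne_zero, Or.inl ⟨?_, by ring⟩⟩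
      simp
    rw [hx _ _ _ _ (hM i) hid]
    simp [Pi.single_apply]
  have hz : (M - 1).mulVec x = 0 := by
    rw [Matrix.sub_mulVec, Matrix.one_mulVec]
    ext i
    rw [Pi.sub_apply, Pi.zero_apply, Matrix.mulVec, dotProduct, hself i, sub_self]
  have hx0 : x = 0 := Matrix.eq_zero_of_mulVec_eq_zero hdet hz
  rw [hx0]
  simp

end Pool.Agent.Results.MP_5a3ebe_gt.FractalTiles
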