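import Pool.Agent.R762.Tr4

/-! Inscribed squares in Jordan curves: a pointwise condition (short arcs, or arcs seen under a small
angle from both ends), and the structure of curves without inscribed squares. -/

set_option autoImplicit false

namespace Pool.Agent.Results.MP_5a3ebe_gt.ShortArcs

/-- The curve `c` contains the four vertices of a square. -/
def HasSquare (c : ℝ → ℂ) : Prop :=
  ∃ z w : ℂ, w ≠ 0 ∧ z ∈ Set.range c ∧ z + w ∈ Set.range c ∧
    z + w + Complex.I * w ∈ Set.range c ∧ z + Complex.I * w ∈ Set.range c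

/-- `P Q R S` is a special trapezoid: the sides `PQ`, `QR`, `RS` are equal, the side `SP` is
shorter, and the diagonals `PR`, `QS` are equal. -/
def Special (P Q R S : ℂ) : Prop :=
  ‖Q - P‖ = ‖R - Q‖ ∧ ‖R - Q‖ = ‖S - R‖ ∧ ‖S - P‖ < ‖R - Q‖ ∧ ‖R - P‖ = ‖S - Q‖

/-- The curve is locally monotone (in the sense of Stromquist) at the parameter `s`: near `s` all
chords of the curve lie in one open half plane. -/
def LocMono (c : ℝ → ℂ) (s : ℝ) : Prop := ∃ ρ > 0, ∃ w : ℂ, ∀ x y : ℝ, |x - s| < ρ → |y - s| < ρ →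
  x < y → 0 < (w * (c y - c x)).re

/-- The points `c t`, `t ∈ T`, are seen from the point `A` under an angle of at most 45 degrees:
some sector with apex `A` and opening 45 degrees contains all of them. -/
def Narrow (c : ℝ → ℂ) (A : ℂ) (T : Set ℝ) : Prop := ∃ w : ℂ, w ≠ 0 ∧ ∀ t ∈ T,
  0 ≤ (w * (c t - A)).im ∧ (w * (c t - A)).im ≤ (w * (c t - A)).re

/-- The arc `c ([x, y])` has a length (in particular a finite one) less than three times the distance
of its end points. -/
def ShortArc (c : ℝ → ℂ) (x y : ℝ) : Prop := eVariationOn c (Set.Icc x y) < 3 * edist (c x) (c y)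

/-- Let `c` (continuous, of period `1`, injective on `[0, 1)`) parametrise a Jordan curve `C`.

1. If `C` does not contain the four vertices of a square, there is a point `c p` of `C` such that
   near `c p` all points of `C` on one side of it are the first vertex (on the other side: the last
   vertex) of a special trapezoid inscribed in `C` near `c p`: for all `ε > 0` there is a `δ > 0`
   such that every `c a` with `p - δ < a < p` is the first vertex of a special trapezoid
   `c a, c t₂, c t₃, c t₄` with `a < t₂ < t₃ < t₄ < p + ε`; or for all `ε > 0` there is a `δ > 0`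
   such that every `c b` with `p < b < p + δ` is the last vertex of a special trapezoid
   `c t₁, c t₂, c t₃, c b` with `p - ε < t₁ < t₂ < t₃ < b`.
2. Suppose that for each point `P = c s` of `C` the curve is locally monotone at `s` or `P` is an
   inner point of an arc of `C` with ends `X = c x`, `Y = c y`, `x < s < y < x + 1/2`, such that
   * the arc is seen from `X` under an angle of at most 45 degrees, or for each point `Q` of the arc
     from `P` to `Y` the arc `XQ` is shorter than three times the distance of `X` and `Q`;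
   * the arc is seen from `Y` under an angle of at most 45 degrees, or for each point `Q` of the arc
     from `X` to `P` the arc `QY` is shorter than three times the distance of `Q` and `Y`.
   Then `C` contains the four vertices of a square.
3. In particular this holds if `c` is Lipschitz with the constant `K` (for instance parametrised
   proportionally to the arc length, `K` being the length of `C`) and at each `s` the curve is
   locally monotone or `c` has one-sided derivatives `v₁`, `v₂` such that the segment from `v₁` to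
   `v₂` does not meet the disc `|z| ≤ K / 3`; the derivatives need not be continuous. -/
theorem result (c : ℝ → ℂ) (hc : Continuous c) (hper : ∀ t, c (t + 1) = c t)
    (hinj : Set.InjOn c (Set.Ico 0 1)) :
    (¬ HasSquare c → ∃ p : ℝ,
      (∀ ε > 0, ∃ δ > 0, ∀ a, p - δ < a → a < p → ∃ t₂ t₃ t₄ : ℝ, a < t₂ ∧ t₂ < t₃ ∧ t₃ < t₄ ∧
        t₄ < p + ε ∧ Special (c a) (c t₂) (c t₃) (c t₄)) ∨
      (∀ ε > 0, ∃ δ > 0, ∀ b, p < b → b < p + δ → ∃ t₁ t₂ t₃ : ℝ, p - ε < t₁ ∧ t₁ < t₂ ∧ t₂ < t₃ ∧
        t₃ < b ∧ Special (c t₁) (c t₂) (c t₃) (c b))) ∧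
    ((∀ s, LocMono c s ∨ ∃ x y, x < s ∧ s < y ∧ y < x + 1 / 2 ∧
      (Narrow c (c x) (Set.Ioc x y) ∨ ∀ t ∈ Set.Icc s y, ShortArc c x t) ∧
      (Narrow c (c y) (Set.Ico x y) ∨ ∀ t ∈ Set.Icc x s, ShortArc c t y)) → HasSquare c) ∧
    (∀ K : NNReal, LipschitzWith K c → (∀ s, LocMono c s ∨ ∃ v₁ v₂ : ℂ,
      HasDerivWithinAt c v₁ (Set.Iio s) s ∧ HasDerivWithinAt c v₂ (Set.Ioi s) s ∧
      ∀ r ∈ Set.Icc (0 : ℝ) 1, (K : ℝ) / 3 < ‖(1 - r) * v₁ + r * v₂‖) → HasSquare c) := by
  have hper' : ∀ (n : ℤ) (t : ℝ), c (t + n) = c t := by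
    have hp : Function.Periodic c 1 := hper
    intro n t
    have := hp.int_mul n t
    rwa [mul_one] at this
  have hfr : ∀ t, c (Int.fract t) = c t := fun t => by
    have := hper' ⌊t⌋ (Int.fract t)
    rw [Int.fract_add_floor] at this
    exact this.symm
  have hγ : H145R2.TSq.Jor c := by
    refine ⟨hc, hper, fun s t h => ?_⟩
    have e := hinj ⟨Int.fract_nonneg s, Int.fract_lt_one s⟩
      ⟨Int.fract_nonneg t, Int.fract_lt_one t⟩ (by rw [hfr, hfr, h])
    obtain ⟨m, hm⟩ := Int.fract_eq_fract.1 e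
    exact ⟨m, by linarith⟩
  -- strict order of the vertices
  have ord : ∀ t : H145R2.SqComb.E, Pool.Agent.R762.Tr.Sp c t →
      t.1 < t.2.1 ∧ t.2.1 < t.2.2.1 ∧ t.2.2.1 < t.2.2.2 := by
    intro t ht
    have hp := ht.pos
    have p1 : 0 < H145R2.TSq.LL c 1 t := by rw [ht.e1]; exact hp
    have p2 : 0 < H145R2.TSq.LL c 2 t := by rw [ht.e2]; exact hp
    refine ⟨lt_of_le_of_ne ht.h1 fun h => ?_, lt_of_le_of_ne ht.h2 fun h => ?_,
      lt_of_le_of_ne ht.h3 fun h => ?_⟩
    · rw [H145R2.TSq.LL0, ← h, sub_self, norm_zero] at hp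
      exact lt_irrefl _ hp
    · rw [H145R2.TSq.LL1, ← h, sub_self, norm_zero] at p1
      exact lt_irrefl _ p1
    · rw [H145R2.TSq.LL2, ← h, sub_self, norm_zero] at p2
      exact lt_irrefl _ p2
  have spec : ¬ HasSquare c → ∀ t : H145R2.SqComb.E, Pool.Agent.R762.Tr.Sp c t →
      t.2.2.2 < t.1 + 1 → Special (c t.1) (c t.2.1) (c t.2.2.1) (c t.2.2.2) := by
    intro hno t ht h4
    have e1 : ‖c t.2.2.1 - c t.2.1‖ = ‖c t.2.1 - c t.1‖ := ht.e1
    have e2 : ‖c t.2.2.2 - c t.2.2.1‖ = ‖c t.2.1 - c t.1‖ := ht.e2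
    have e3 : ‖c t.1 - c t.2.2.2‖ < ‖c t.2.1 - c t.1‖ := ht.strict hγ hno h4
    have ef : ‖c t.2.2.1 - c t.1‖ - ‖c t.2.2.2 - c t.2.1‖ = 0 := ht.f
    refine ⟨e1.symm, e1.trans e2.symm, ?_, by linarith⟩
    rw [norm_sub_rev, e1]
    exact e3
  refine ⟨fun hno => ?_, fun h => Pool.Agent.R762.Tr.class_main hγ fun s => ?_,
    fun K hK h => Pool.Agent.R762.Tr.class_main hγ fun s => ?_⟩
  · obtain ⟨p, hp⟩ := Pool.Agent.R762.Tr.structure_main hγ hno
    refine ⟨p, hp.imp (fun h ε hε => ?_) (fun h ε hε => ?_)⟩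
    · obtain ⟨δ, hδ, H⟩ := h (min ε (1 / 4)) (by positivity)
      refine ⟨min δ (1 / 4), by positivity, fun a h1 h2 => ?_⟩
      have k1 := min_le_left δ (1 / 4)
      have k2 := min_le_right δ (1 / 4)
      have k3 := min_le_left ε (1 / 4)
      have k4 := min_le_right ε (1 / 4)
      obtain ⟨t, ht, e, h4⟩ := H a (by linarith) h2
      obtain ⟨o1, o2, o3⟩ := ord t ht
      have := spec hno t ht (by linarith)
      rw [e] at this o1
      exact ⟨_, _, _, o1, o2, o3, by linarith, this⟩
    · obtain ⟨δ, hδ, H⟩ := h (min ε (1 / 4)) (by positivity)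
      refine ⟨min δ (1 / 4), by positivity, fun b h1 h2 => ?_⟩
      have k1 := min_le_left δ (1 / 4)
      have k2 := min_le_right δ (1 / 4)
      have k3 := min_le_left ε (1 / 4)
      have k4 := min_le_right ε (1 / 4)
      obtain ⟨t, ht, e, h4⟩ := H b h1 (by linarith)
      obtain ⟨o1, o2, o3⟩ := ord t ht
      have := spec hno t ht (by linarith)
      rw [e] at this o3
      exact ⟨_, _, _, by linarith, o1, o2, o3, this⟩
  · rcases h s with h | ⟨x, y, hx, hy, hxy, h1, h2⟩
    · exact Or.inl h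
    · refine Or.inr ⟨x, y, hx, hy, hxy, h1.imp ?_ fun h => h, h2.imp ?_ fun h => h⟩
      · rintro ⟨w, hw, h⟩
        exact ⟨w, hw, fun t a b => h t ⟨a, b⟩⟩
      · rintro ⟨w, hw, h⟩
        exact ⟨w, hw, fun t a b => h t ⟨a, b⟩⟩
  · rcases h s with h | ⟨v₁, v₂, h1, h2, h3⟩
    · exact Or.inl h
    · obtain ⟨x, y, hx, hy, hxy, g1, g2⟩ := Pool.Agent.R762.Tr.local_short hK h1 h2 h3
      exact Or.inr ⟨x, y, hx, hy, hxy, Or.inr g1, Or.inr g2⟩

end Pool.Agent.Results.MP_5a3ebe_gt.ShortArcs
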