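import Pool.Agent.R762.Pg4

/-! Inscribed squares in Jordan curves that are locally monotone except in finitely many discs, in
which they are completely arbitrary, but around which they look like a line or like a corner at one
scale. -/

set_option autoImplicit false

namespace Pool.Agent.Results.MP_5a3ebe_gt.WildDiscs

/-- The curve is locally monotone (in the sense of Stromquist) at the parameter `s`: near `s` all
chords of the curve lie in one open half plane. -/
def LocMono (c : ℝ → ℂ) (s : ℝ) : Prop := ∃ ρ > 0, ∃ w : ℂ, ∀ x y : ℝ, |x - s| < ρ → |y - s| < ρ →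
  x < y → 0 < (w * (c y - c x)).re

/-- An arc that is nearly straight outside a small disc. For a disc with centre `p` and radius `r`
and a unit vector `u`: the curve (of period `1`) does not enter the open disc `|z - p| < 12 r` outside
the arc over `[a, b]`; an arc over `[s, t]`, `a ≤ s ≤ t ≤ b`, about which nothing else is assumed,
lies in the disc `|z - p| ≤ r`; the chords of the two remaining arcs, over `[a, s]` and over
`[t, b]`, form an angle of at most `arctan (1 / 10)` with the direction `u`. -/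
def FlatAround (c : ℝ → ℂ) (a b : ℝ) : Prop := ∃ (p u : ℂ) (r s t : ℝ), ‖u‖ = 1 ∧ 0 < r ∧
  a ≤ s ∧ s ≤ t ∧ t ≤ b ∧ b ≤ a + 1 ∧ (∀ x ∈ Set.Icc s t, ‖c x - p‖ ≤ r) ∧
  (∀ x y, (a ≤ x ∧ x < y ∧ y ≤ s) ∨ (t ≤ x ∧ x < y ∧ y ≤ b) →
    |((c y - c x) / u).im| ≤ ((c y - c x) / u).re / 10) ∧
  (∀ x ∈ Set.Icc b (a + 1), 12 * r ≤ ‖c x - p‖)

/-- An arc that forms a corner with straight sides outside a small disc. For a disc with centre `p`
and radius `r` and two different unit vectors `u₁`, `u₂`: the curve (of period `1`) does not enter the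
open disc with centre `p` and radius `R = 25 r / |u₁ - u₂|²` (or with a larger radius `R`)
outside the arc over `[a, b]`; an arc over `[s, t]`, `a ≤ s ≤ t ≤ b`, about which nothing else is
assumed, lies in the disc `|z - p| ≤ r`; the arcs over `[a, s]` and over `[t, b]` are on the rays
from `p` with the directions `u₁` and `u₂`. -/
def CornerAround (c : ℝ → ℂ) (a b : ℝ) : Prop := ∃ (p u₁ u₂ : ℂ) (r R s t : ℝ), ‖u₁‖ = 1 ∧
  ‖u₂‖ = 1 ∧ 0 < r ∧ 25 * r ≤ R * ‖u₁ - u₂‖ ^ 2 ∧ a ≤ s ∧ s ≤ t ∧ t ≤ b ∧ b ≤ a + 1 ∧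
  (∀ x ∈ Set.Icc s t, ‖c x - p‖ ≤ r) ∧ (∀ x ∈ Set.Icc a s, c x = p + ‖c x - p‖ * u₁) ∧
  (∀ x ∈ Set.Icc t b, c x = p + ‖c x - p‖ * u₂) ∧ (∀ x ∈ Set.Icc b (a + 1), R ≤ ‖c x - p‖)

/-- Let `c` (continuous, of period `1`, injective on `[0, 1)`) parametrise a Jordan curve `C`, let
`n ≥ 1` and let the arcs over `[a 0, b 0], …, [a (n - 1), b (n - 1)]` follow one another on `C`
(`b k ≤ a (k + 1)`, `a n = a 0 + 1`). Suppose that each of them is nearly straight or forms a corner
outside a small disc, in the sense of `FlatAround` and `CornerAround`, and that `C` is locally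
monotone at all points of the arcs between them. Then `C` contains the four vertices of a square.

Nothing is assumed about the parts of `C` in the small discs: they are arbitrary arcs. -/
theorem result (c : ℝ → ℂ) (hc : Continuous c) (hper : ∀ t, c (t + 1) = c t)
    (hinj : Set.InjOn c (Set.Ico 0 1)) (n : ℕ) (hn : 0 < n) (a b : ℕ → ℝ)
    (hab : ∀ k < n, b k ≤ a (k + 1)) (hend : a n = a 0 + 1)
    (hdisc : ∀ k < n, FlatAround c (a k) (b k) ∨ CornerAround c (a k) (b k))
    (hmono : ∀ k < n, ∀ s ∈ Set.Icc (b k) (a (k + 1)), LocMono c s) :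
    ∃ z w : ℂ, w ≠ 0 ∧ z ∈ Set.range c ∧ z + w ∈ Set.range c ∧
      z + w + Complex.I * w ∈ Set.range c ∧ z + Complex.I * w ∈ Set.range c := by
  have L : Pool.Agent.H763R2.An.Loop c := ⟨hc, hper⟩
  have J : Pool.Agent.H763R2.An.Inj c := by
    intro x y hxy hy he
    have e1 : c (Int.fract x) = c x := by
      have := L.per_int (Int.fract x) ⌊x⌋
      rw [Int.fract_add_floor] at this
      exact this.symm
    have e2 : c (Int.fract y) = c y := by
      have := L.per_int (Int.fract y) ⌊y⌋
      rw [Int.fract_add_floor] at this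
      exact this.symm
    have e3 := hinj ⟨Int.fract_nonneg x, Int.fract_lt_one x⟩
      ⟨Int.fract_nonneg y, Int.fract_lt_one y⟩ (by rw [e1, e2, he])
    obtain ⟨m, hm⟩ := Int.fract_eq_fract.1 e3
    have h1 : (m : ℝ) < 0 := by linarith
    have h2 : (-1 : ℝ) < m := by linarith
    have h3 : m < 0 := by exact_mod_cast h1
    have h4 : -1 < m := by exact_mod_cast h2
    omega
  by_contra hno
  refine Pool.Agent.R762.Pg.square_of_good L J hno hn hab hend (fun k hk => ?_) hmono
  rcases hdisc k hk with h | h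
  · exact Pool.Agent.R762.Pg.FlatDisc.good L J h
  · exact Pool.Agent.R762.Pg.CornerDisc.good L J h

end Pool.Agent.Results.MP_5a3ebe_gt.WildDiscs
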